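import Mathlib
import Pool.Agent.L7h17.AH.Stm

/-!
# Project AH, part ORT (owner: helper17): the retraction corrected to have orthogonal derivatives
-/

set_option autoImplicit false

open Set Filter Topology
open scoped ContDiff

noncomputable section

namespace Pool.Agent.L7h75.AH

open Pool.Agent.L7h32.AA Pool.Agent.L7h32.PI Pool.Agent.L7h17.AH

variable {E : Type} [NormedAddCommGroup E] [InnerProductSpace ℝ E] [FiniteDimensional ℝ E]

/-- the operator `P + P† - 1` -/
def sOp (P : E →L[ℝ] E) : E →L[ℝ] E := P + star P - 1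

/-- the orthogonal projection to the range of the idempotent `P` -/
def piOp (P : E →L[ℝ] E) : E →L[ℝ] E := P * Ring.inverse (sOp P)

lemma sOp_sq (P : E →L[ℝ] E) (hP : P * P = P) :
    sOp P * sOp P = 1 + star (P - star P) * (P - star P) := by
  have hQ : star P * star P = star P := by rw [← star_mul, hP]
  unfold sOp
  rw [star_sub, star_star]
  have e1 : (P + star P - 1) * (P + star P - 1) =
      P * P + P * star P + star P * P + star P * star P - 2 • P - 2 • star P + 1 := by
    noncomm_ring
  have e2 : (star P - P) * (P - star P) =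
      star P * P - star P * star P - P * P + P * star P := by noncomm_ring
  rw [e1, e2, hP, hQ]
  noncomm_ring

lemma sOp_isUnit (P : E →L[ℝ] E) (hP : P * P = P) : IsUnit (sOp P) := by
  have hsa : star (sOp P) = sOp P := by
    unfold sOp
    rw [star_sub, star_add, star_star, star_one, add_comm]
  have hlow : ∀ v : E, ‖v‖ ≤ ‖sOp P v‖ := by
    intro v
    have h1 : ‖sOp P v‖ ^ 2 = ‖v‖ ^ 2 + ‖(P - star P) v‖ ^ 2 := by
      have a1 : inner ℝ (sOp P v) (sOp P v) = inner ℝ ((sOp P * sOp P) v) v := by
        have := ContinuousLinearMap.adjoint_inner_left (sOp P) v (sOp P v)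
        rw [← ContinuousLinearMap.star_eq_adjoint, hsa] at this
        rw [ContinuousLinearMap.mul_apply, this]
      have a2 : inner ℝ ((star (P - star P) * (P - star P)) v) v =
          inner ℝ ((P - star P) v) ((P - star P) v) := by
        rw [ContinuousLinearMap.mul_apply, ContinuousLinearMap.star_eq_adjoint,
          ContinuousLinearMap.adjoint_inner_left]
      rw [← real_inner_self_eq_norm_sq, ← real_inner_self_eq_norm_sq, ← real_inner_self_eq_norm_sq,
        a1, sOp_sq P hP, ContinuousLinearMap.add_apply, inner_add_left, a2,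
        ContinuousLinearMap.one_apply]
    have h2 : ‖v‖ ^ 2 ≤ ‖sOp P v‖ ^ 2 := by
      rw [h1]; nlinarith [sq_nonneg ‖(P - star P) v‖]
    exact le_of_sq_le_sq h2 (norm_nonneg _)
  have hinj : Function.Injective (sOp P) := by
    rw [injective_iff_map_eq_zero]
    intro v hv
    have := hlow v
    rw [hv, norm_zero] at this
    exact norm_le_zero_iff.1 this
  rw [ContinuousLinearMap.isUnit_iff_bijective]
  refine ⟨hinj, ?_⟩
  have : Function.Injective (sOp P : E →ₗ[ℝ] E) := hinj
  exact (LinearMap.injective_iff_surjective.1 this)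

/-- the algebra -/
lemma pi_facts (P : E →L[ℝ] E) (hP : P * P = P) :
    P * piOp P = piOp P ∧ piOp P * P = P ∧ ‖piOp P‖ ≤ 1 := by
  have hQ : star P * star P = star P := by rw [← star_mul, hP]
  have hU := sOp_isUnit P hP
  set S := sOp P with hS
  set T := Ring.inverse S with hT
  have hST : S * T = 1 := Ring.mul_inverse_cancel S hU
  have hTS : T * S = 1 := Ring.inverse_mul_cancel S hU
  have hPS : P * S = P * star P := by
    rw [hS, sOp, mul_sub, mul_add, hP, mul_one]; abel
  have hSQ : S * star P = P * star P := by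
    rw [hS, sOp, sub_mul, add_mul, hQ, one_mul]; abel
  have hSP : S * P = star P * P := by
    rw [hS, sOp, sub_mul, add_mul, hP, one_mul]; abel
  have hQS : star P * S = star P * P := by
    rw [hS, sOp, mul_sub, mul_add, hQ, mul_one]; abel
  -- T P = Q T
  have hTP : T * P = star P * T := by
    calc T * P = T * P * (S * T) := by rw [hST, mul_one]
      _ = T * (P * S) * T := by noncomm_ring
      _ = T * (S * star P) * T := by rw [hPS, hSQ]
      _ = (T * S) * star P * T := by noncomm_ring
      _ = star P * T := by rw [hTS, one_mul]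
  have hPT : P * T = T * star P := by
    calc P * T = (T * S) * P * T := by rw [hTS, one_mul]
      _ = T * (S * P) * T := by noncomm_ring
      _ = T * (star P * S) * T := by rw [hSP, hQS]
      _ = T * star P * (S * T) := by noncomm_ring
      _ = T * star P := by rw [hST, mul_one]
  have hpi : piOp P = P * T := rfl
  have hsaS : star S = S := by
    rw [hS]; unfold sOp
    rw [star_sub, star_add, star_star, star_one, add_comm]
  have hsaT : star T = T := by
    have h1 : star T * S = 1 := by
      have := congrArg star hST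
      rwa [star_mul, star_one, hsaS] at this
    calc star T = star T * (S * T) := by rw [hST, mul_one]
      _ = (star T * S) * T := by rw [mul_assoc]
      _ = T := by rw [h1, one_mul]
  have hsa : star (piOp P) = piOp P := by
    rw [hpi, star_mul, hsaT, hPT]
  have hid : piOp P * piOp P = piOp P := by
    calc P * T * (P * T) = P * (T * P) * T := by noncomm_ring
      _ = P * (star P * T) * T := by rw [hTP]
      _ = (P * star P) * T * T := by noncomm_ring
      _ = (P * S) * T * T := by rw [hPS]
      _ = P * (S * T) * T := by noncomm_ring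
      _ = P * T := by rw [hST, mul_one]
  refine ⟨?_, ?_, ?_⟩
  · rw [hpi, ← mul_assoc, hP]
  · calc P * T * P = P * (T * P) := by rw [mul_assoc]
      _ = P * (star P * T) := by rw [hTP]
      _ = (P * star P) * T := by rw [mul_assoc]
      _ = (P * S) * T := by rw [hPS]
      _ = P * (S * T) := by rw [mul_assoc]
      _ = P := by rw [hST, mul_one]
  · apply ContinuousLinearMap.opNorm_le_bound _ zero_le_one
    intro v
    rw [one_mul]
    set w := piOp P v with hw
    have h1 : ‖w‖ ^ 2 = inner ℝ v w := by
      have a1 : inner ℝ w w = inner ℝ v w := by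
        have h2 := ContinuousLinearMap.adjoint_inner_right (piOp P) v w
        rw [← ContinuousLinearMap.star_eq_adjoint, hsa] at h2
        have h3 : piOp P w = w := by
          rw [hw, ← ContinuousLinearMap.mul_apply, hid]
        rw [h3] at h2
        exact h2.symm
      rw [← real_inner_self_eq_norm_sq, a1]
    have h2 : inner ℝ v w ≤ ‖v‖ * ‖w‖ := real_inner_le_norm v w
    rcases eq_or_lt_of_le (norm_nonneg w) with h0 | h0
    · rw [← h0]; exact norm_nonneg v
    · have : ‖w‖ * ‖w‖ ≤ ‖v‖ * ‖w‖ := by rw [← pow_two, h1]; exact h2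
      exact le_of_mul_le_mul_right this h0

lemma star_contDiff : ContDiff ℝ ∞ (fun P : E →L[ℝ] E => star P) := by
  have h : IsLinearMap ℝ (fun P : E →L[ℝ] E => star P) := by
    constructor
    · intro x y; exact star_add x y
    · intro c x
      rw [star_smul]
      simp
  refine (h.with_bound 1 fun P => ?_).contDiff
  rw [one_mul, ContinuousLinearMap.star_eq_adjoint]
  exact le_of_eq (LinearIsometryEquiv.norm_map _ _)

lemma piOp_contDiffAt (P : E →L[ℝ] E) (hP : P * P = P) : ContDiffAt ℝ ∞ (piOp (E := E)) P := by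
  have h1 : ContDiff ℝ ∞ (sOp (E := E)) := (contDiff_id.add star_contDiff).sub contDiff_const
  obtain ⟨u, hu⟩ := sOp_isUnit P hP
  have h2 : ContDiffAt ℝ ∞ (Ring.inverse : (E →L[ℝ] E) → (E →L[ℝ] E)) (sOp P) := by
    rw [← hu]; exact contDiffAt_ringInverse ℝ u
  have h3 : ContDiffAt ℝ ∞ (fun P : E →L[ℝ] E => Ring.inverse (sOp P)) P :=
    h2.comp P h1.contDiffAt
  exact contDiffAt_id.mul h3

variable {K U : Set E} {N : E → E}

lemma idem (hR : Ret K U N) {p : E} (hp : p ∈ K) :
    fderiv ℝ N p * fderiv ℝ N p = fderiv ℝ N p := by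
  have h0 : DifferentiableAt ℝ N p :=
    (hR.smooth.contDiffAt (hR.opn.mem_nhds (hR.sub hp))).differentiableAt (by simp)
  have h1 : HasFDerivAt N (fderiv ℝ N p) p := h0.hasFDerivAt
  have h1' : HasFDerivAt N (fderiv ℝ N p) (N p) := by rw [hR.fix p hp]; exact h1
  have h2 : HasFDerivAt (fun z => N (N z)) ((fderiv ℝ N p).comp (fderiv ℝ N p)) p := h1'.comp p h1
  have h3 : (fun z => N (N z)) =ᶠ[𝓝 p] N := by
    filter_upwards [hR.opn.mem_nhds (hR.sub hp)] with z hz
    exact hR.fix _ (hR.maps z hz)
  have h4 := (h1.congr_of_eventuallyEq h3).unique h2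
  exact h4.symm

theorem s_ORT : S_ORT := by
  intro E _ _ _ K U N hR
  set Pi : E → (E →L[ℝ] E) := fun z => piOp (fderiv ℝ N (N z)) with hPi
  set q : E → E := fun z => N z + Pi z (z - N z) with hq
  have hfd : ContDiffOn ℝ ∞ (fderiv ℝ N) U := hR.smooth.fderiv_of_isOpen hR.opn (by simp)
  have hNat : ∀ z ∈ U, ContDiffAt ℝ ∞ N z := fun z hz =>
    hR.smooth.contDiffAt (hR.opn.mem_nhds hz)
  have hPiat : ∀ z ∈ U, ContDiffAt ℝ ∞ Pi z := by
    intro z hz
    have hNz : N z ∈ U := hR.sub (hR.maps z hz)
    have h1 : ContDiffAt ℝ ∞ (fderiv ℝ N) (N z) := hfd.contDiffAt (hR.opn.mem_nhds hNz)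
    have h2 : ContDiffAt ℝ ∞ (fun z => fderiv ℝ N (N z)) z := h1.comp z (hNat z hz)
    exact (piOp_contDiffAt _ (idem hR (hR.maps z hz))).comp z h2
  have hqat : ∀ z ∈ U, ContDiffAt ℝ ∞ q z := by
    intro z hz
    exact (hNat z hz).add ((hPiat z hz).clm_apply (contDiffAt_id.sub (hNat z hz)))
  have hqon : ContDiffOn ℝ ∞ q U := fun z hz => (hqat z hz).contDiffWithinAt
  have hqfix : ∀ x ∈ K, q x = x := by
    intro x hx
    simp only [hq, hR.fix x hx, sub_self, map_zero, add_zero]
  refine ⟨U ∩ q ⁻¹' U, q, hqon.continuousOn.isOpen_inter_preimage hR.opn hR.opn, ?_, ?_, ?_,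
    hqfix, ?_⟩
  · intro x hx
    refine ⟨hR.sub hx, ?_⟩
    show q x ∈ U
    rw [hqfix x hx]
    exact hR.sub hx
  · exact hqon.mono inter_subset_left
  · intro z hz
    exact hz.2
  · intro p hp
    have hpU : p ∈ U := hR.sub hp
    have hNp : N p = p := hR.fix p hp
    set P := fderiv ℝ N p with hP
    have hN : HasFDerivAt N P p := ((hNat p hpU).differentiableAt (by simp)).hasFDerivAt
    obtain ⟨L, hL⟩ : ∃ L, HasFDerivAt Pi L p :=
      ⟨_, ((hPiat p hpU).differentiableAt (by simp)).hasFDerivAt⟩
    have hu : HasFDerivAt (fun z => z - N z) (ContinuousLinearMap.id ℝ E - P) p :=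
      (hasFDerivAt_id p).sub hN
    have hq1 : HasFDerivAt q (P + ((Pi p).comp (ContinuousLinearMap.id ℝ E - P) +
        L.flip (p - N p))) p := hN.add (hL.clm_apply hu)
    have hq2 : P + ((Pi p).comp (ContinuousLinearMap.id ℝ E - P) + L.flip (p - N p)) =
        piOp P := by
      rw [hNp, sub_self, map_zero, add_zero]
      have hPip : Pi p = piOp P := by simp only [hPi, hNp, hP]
      rw [hPip]
      have h1 : (piOp P).comp (ContinuousLinearMap.id ℝ E - P) = piOp P - piOp P * P := by
        ext v
        simp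
      rw [h1, (pi_facts P (idem hR hp)).2.1]
      abel
    rw [hq2] at hq1
    have hN' : HasFDerivAt N P (q p) := by rw [hqfix p hp]; exact hN
    have hNq : HasFDerivAt (fun z => N (q z)) (P.comp (piOp P)) p := hN'.comp p hq1
    rw [hNq.fderiv]
    have h2 : P.comp (piOp P) = piOp P := (pi_facts P (idem hR hp)).1
    rw [h2]
    exact (pi_facts P (idem hR hp)).2.2

end Pool.Agent.L7h75.AH
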