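import Mathlib
import Pool.Agent.L7h17.AH.Stm

/-!
# Project AH, part TOP (owner: helper17): the two model spaces are compact and connected
-/

set_option autoImplicit false

open Set Filter Topology Metric

noncomputable section

namespace Pool.Agent.L7h75.AH

open Pool.Agent.L7h17.AH

/-- `ℝ³` -/
abbrev E3 : Type := EuclideanSpace ℝ (Fin 3)

/-- `ℝ × ℝ³` with the euclidean norm -/
abbrev V4 : Type := WithLp 2 (ℝ × E3)

lemma rank_gt (E : Type) [NormedAddCommGroup E] [NormedSpace ℝ E] [FiniteDimensional ℝ E]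
    (h : Module.finrank ℝ E = 4) : 1 < Module.rank ℝ E := by
  rw [← Module.finrank_eq_rank, h]
  norm_num

lemma conn_R4 : ConnectedSpace (sphere (0 : R4) 1) := by
  have h : IsConnected (sphere (0 : R4) 1) :=
    isConnected_sphere (rank_gt R4 (by simp)) 0 zero_le_one
  exact Subtype.connectedSpace h

lemma conn_V4 : ConnectedSpace (sphere (0 : V4) 1) := by
  have hf : Module.finrank ℝ V4 = 4 := by
    rw [(WithLp.linearEquiv 2 ℝ (ℝ × E3)).finrank_eq]
    simp
  have h : IsConnected (sphere (0 : V4) 1) :=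
    isConnected_sphere (rank_gt V4 hf) 0 zero_le_one
  exact Subtype.connectedSpace h

lemma conn_circle : ConnectedSpace Circle := by
  have h : Function.Surjective Circle.exp := by
    intro z
    exact ⟨Complex.arg z, Circle.exp_arg z⟩
  exact h.connectedSpace Circle.exp.continuous

/-- the parametrization of the twisted product -/
def phi (x : ℝ × sphere (0 : V4) 1) : Twisted13 :=
  ⟨(Complex.exp ((x.1 : ℂ) * Complex.I),
    ((x.2 : V4).fst : ℂ) * Complex.exp (((x.1 / 2 : ℝ) : ℂ) * Complex.I), (x.2 : V4).snd), by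
    have hn : ‖(((x.2 : V4).fst : ℝ) : ℂ) * Complex.exp (((x.1 / 2 : ℝ) : ℂ) * Complex.I)‖ =
        |(x.2 : V4).fst| := by
      rw [norm_mul, Complex.norm_exp_ofReal_mul_I, mul_one, Complex.norm_real, Real.norm_eq_abs]
    refine ⟨Complex.norm_exp_ofReal_mul_I _, ?_, ?_⟩
    · show ((((x.2 : V4).fst : ℝ) : ℂ) * Complex.exp (((x.1 / 2 : ℝ) : ℂ) * Complex.I)) ^ 2 =
        ((‖(((x.2 : V4).fst : ℝ) : ℂ) * Complex.exp (((x.1 / 2 : ℝ) : ℂ) * Complex.I)‖ ^ 2 : ℝ) : ℂ) *
          Complex.exp ((x.1 : ℂ) * Complex.I)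
      rw [hn, sq_abs, mul_pow, ← Complex.exp_nat_mul]
      push_cast
      congr 2
      ring
    · show ‖(((x.2 : V4).fst : ℝ) : ℂ) * Complex.exp (((x.1 / 2 : ℝ) : ℂ) * Complex.I)‖ ^ 2 +
        ‖(x.2 : V4).snd‖ ^ 2 = 1
      rw [hn]
      have h1 : ‖(x.2 : V4)‖ = 1 := by simpa using x.2.2
      have h2 := WithLp.prod_norm_sq_eq_of_L2 (x.2 : V4)
      rw [h1, Real.norm_eq_abs] at h2
      linarith⟩

lemma phi_cont : Continuous phi := by
  apply Continuous.subtype_mk
  refine Continuous.prodMk ?_ (Continuous.prodMk ?_ ?_)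
  · fun_prop
  · have h : Continuous fun x : ℝ × sphere (0 : V4) 1 => (x.2 : V4).fst :=
      (continuous_fst.comp (WithLp.prod_continuous_ofLp 2 ℝ E3)).comp
        (continuous_subtype_val.comp continuous_snd)
    have h2 : Continuous fun x : ℝ × sphere (0 : V4) 1 => (((x.2 : V4).fst : ℝ) : ℂ) :=
      Complex.continuous_ofReal.comp h
    exact h2.mul (by fun_prop)
  · exact (continuous_snd.comp (WithLp.prod_continuous_ofLp 2 ℝ E3)).comp
        (continuous_subtype_val.comp continuous_snd)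

lemma phi_surj : Function.Surjective phi := by
  rintro ⟨⟨p, z, u⟩, hp, hz, hu⟩
  simp only at hp hz hu
  set θ : ℝ := Complex.arg p with hθ
  have hpe : Complex.exp ((θ : ℂ) * Complex.I) = p := by
    have := Complex.norm_mul_exp_arg_mul_I p
    rw [hp] at this
    simpa using this
  set e : ℂ := Complex.exp (((θ / 2 : ℝ) : ℂ) * Complex.I) with he
  have he2 : e ^ 2 = p := by
    rw [he, ← Complex.exp_nat_mul, ← hpe]
    congr 1
    push_cast
    ring
  have hz2 : z ^ 2 = ((‖z‖ : ℂ) * e) ^ 2 := by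
    rw [mul_pow, he2, hz]
    push_cast
    ring
  have hw : ∃ w : ℝ, z = (w : ℂ) * e ∧ w ^ 2 = ‖z‖ ^ 2 := by
    rcases sq_eq_sq_iff_eq_or_eq_neg.1 hz2 with h | h
    · exact ⟨‖z‖, h, rfl⟩
    · exact ⟨-‖z‖, by rw [Complex.ofReal_neg, neg_mul]; exact h, by ring⟩
  obtain ⟨w, hw1, hw2⟩ := hw
  have hv : ‖(WithLp.toLp 2 (w, u) : V4)‖ = 1 := by
    have h2 := WithLp.prod_norm_sq_eq_of_L2 (WithLp.toLp 2 (w, u) : V4)
    have h3 : ‖(WithLp.toLp 2 (w, u) : V4)‖ ^ 2 = 1 := by
      rw [h2]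
      show ‖w‖ ^ 2 + ‖u‖ ^ 2 = 1
      rw [Real.norm_eq_abs, sq_abs, hw2]
      exact hu
    nlinarith [norm_nonneg (WithLp.toLp 2 (w, u) : V4)]
  refine ⟨(θ, ⟨WithLp.toLp 2 (w, u), by simpa using hv⟩), ?_⟩
  apply Subtype.ext
  show (Complex.exp ((θ : ℂ) * Complex.I), (w : ℂ) * e, u) = (p, z, u)
  rw [hpe, ← hw1]

theorem s_TOP : S_TOP := by
  have := conn_circle
  have := conn_R4
  have := conn_V4
  refine ⟨inferInstance, inferInstance, ?_, phi_surj.connectedSpace phi_cont⟩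
  apply isCompact_iff_compactSpace.1
  apply Metric.isCompact_of_isClosed_isBounded
  · refine IsClosed.inter ?_ (IsClosed.inter ?_ ?_)
    · exact isClosed_eq (by fun_prop) continuous_const
    · exact isClosed_eq (by fun_prop) (by fun_prop)
    · exact isClosed_eq (by fun_prop) continuous_const
  · apply (Metric.isBounded_closedBall (x := (0 : ℂ × ℂ × E3)) (r := 1)).subset
    rintro ⟨p, z, u⟩ ⟨hp, hz, hu⟩
    simp only at hp hz hu
    rw [mem_closedBall, dist_zero_right, Prod.norm_def, Prod.norm_def]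
    have h1 : ‖z‖ ≤ 1 := by nlinarith [norm_nonneg z, sq_nonneg ‖u‖]
    have h2 : ‖u‖ ≤ 1 := by nlinarith [norm_nonneg u, sq_nonneg ‖z‖]
    exact max_le hp.le (max_le h1 h2)

end Pool.Agent.L7h75.AH
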